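import Mathlib
set_option autoImplicit false

/-!
# Crossing rate of long rectangles: definitions

Critical bond percolation on the square lattice, horizontal edges open with probability `p`,
vertical edges open with probability `1 - p`.
-/

open Polynomial Filter Topology

namespace W96CL

/-! ## 1. the percolation model -/

/-- the edges of the rectangle `[0,a] x [0,b]`: `inl (i,j)` joins `(i,j)` and `(i+1,j)`,
`inr (i,j)` joins `(i,j)` and `(i,j+1)` -/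
abbrev Edg (a b : ℕ) := (Fin a × Fin (b + 1)) ⊕ (Fin (a + 1) × Fin b)

/-- open edges, as oriented steps -/
inductive Step {a b : ℕ} (ω : Edg a b → Bool) : ℕ × ℕ → ℕ × ℕ → Prop
  | hor (i : Fin a) (j : Fin (b + 1)) : ω (Sum.inl (i, j)) = true →
      Step ω (i.val, j.val) (i.val + 1, j.val)
  | ver (i : Fin (a + 1)) (j : Fin b) : ω (Sum.inr (i, j)) = true →
      Step ω (i.val, j.val) (i.val, j.val + 1)

/-- an open path joins the left side to the right side -/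
def Cross {a b : ℕ} (ω : Edg a b → Bool) : Prop :=
  ∃ j j' : ℕ, j ≤ b ∧ j' ≤ b ∧ Relation.EqvGen (Step ω) (0, j) (a, j')

/-- the probability of the configuration `ω` -/
noncomputable def wgt (p : ℝ) {a b : ℕ} (ω : Edg a b → Bool) : ℝ :=
  (∏ e : Fin a × Fin (b + 1), if ω (Sum.inl e) = true then p else 1 - p) *
    (∏ e : Fin (a + 1) × Fin b, if ω (Sum.inr e) = true then 1 - p else p)

open Classical in
/-- the probability of a left-right open crossing of `[0,a] x [0,b]` -/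
noncomputable def prob (p : ℝ) (a b : ℕ) : ℝ :=
  ∑ ω : Edg a b → Bool, if Cross ω then wgt p ω else 0

/-- the probability that a horizontal edge is open, as a function of the angle -/
noncomputable def pp (θ : ℝ) : ℝ := Real.sin (Real.pi / 3 - θ) / Real.sin (Real.pi / 3 + θ)

/-! ## 2. the Temperley-Lieb algebra -/

/-- `exp (i pi / 3)` -/
noncomputable def uu : ℂ := ⟨1 / 2, Real.sqrt 3 / 2⟩

/-- `exp (2 i pi / 3)` -/
noncomputable def om : ℂ := ⟨-1 / 2, Real.sqrt 3 / 2⟩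

noncomputable def wF (y : ℂ) : ℂ := uu + (1 - uu) * y
noncomputable def wT (y : ℂ) : ℂ := (1 - uu) + uu * y

section alg
variable {A : Type} [Ring A] [Algebra ℂ A]

/-- Temperley-Lieb relations with loop weight `1` for `e 0, ..., e (N - 2)` -/
structure TL (e : ℕ → A) (N : ℕ) : Prop where
  sq : ∀ i, i + 1 < N → e i * e i = e i
  up : ∀ i, i + 2 < N → e i * e (i + 1) * e i = e i
  dn : ∀ i, i + 2 < N → e (i + 1) * e i * e (i + 1) = e (i + 1)
  cm : ∀ i j, i + 1 < j → j + 1 < N → e i * e j = e j * e i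

/-- the face operator -/
noncomputable def XX (e : ℕ → A) (i : ℕ) (y : ℂ) : A := wF y • (1 : A) + wT y • e i

noncomputable def tau (x z : ℂ) : ℂ := wT (x / z) * wT (x * z)
noncomputable def ph1 (x z : ℂ) : ℂ := (1 + x / z) * (1 + x * z)

/-- two rows, open at the left: `X_i(x/z) ... X(x z)` -/
noncomputable def BB (e : ℕ → A) (x : ℂ) : ℕ → List ℂ → A
  | _, [] => 1
  | i, z :: L => XX e i (x / z) * BB e x (i + 1) L * XX e i (x * z)

/-- double row transfer matrix (closed at both ends) -/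
noncomputable def DD (e : ℕ → A) (x : ℂ) : ℕ → List ℂ → A
  | _, [] => 1
  | i, z :: L => (ph1 x z - tau x z) • BB e x i L + tau x z • DD e x (i + 1) L

/-- `X_i(y) X_{i+2}(y) ...` (`m` factors) -/
noncomputable def Lay (e : ℕ → A) (y : ℂ) : ℕ → ℕ → A
  | _, 0 => 1
  | i, (m + 1) => XX e i y * Lay e y (i + 2) m

/-- `∏ (1 + x/z)(1 + x z)` -/
noncomputable def phL (x : ℂ) (L : List ℂ) : ℂ := (L.map fun z => ph1 x z).prod

/-- `[z, z⁻¹, z, z⁻¹, ...]` (`n` pairs) -/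
noncomputable def alt (z : ℂ) : ℕ → List ℂ
  | 0 => []
  | (n + 1) => z :: z⁻¹ :: alt z n

end alg

/-! ## 3. states of a column -/

/-- isolate the site `k` -/
def cutS {n : ℕ} (k : Fin n) (r : Setoid (Option (Fin n))) : Setoid (Option (Fin n)) where
  r a b := a = b ∨ (a ≠ some k ∧ b ≠ some k ∧ r a b)
  iseqv := by
    refine ⟨fun a => Or.inl rfl, ?_, ?_⟩
    · rintro a b (h | ⟨h1, h2, h3⟩)
      · exact Or.inl h.symm
      · exact Or.inr ⟨h2, h1, r.symm h3⟩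
    · rintro a b c (h | ⟨h1, h2, h3⟩) (h' | ⟨h1', h2', h3'⟩)
      · exact Or.inl (h.trans h')
      · subst h; exact Or.inr ⟨h1', h2', h3'⟩
      · subst h'; exact Or.inr ⟨h1, h2, h3⟩
      · exact Or.inr ⟨h1, h2', r.trans h3 h3'⟩

/-- join the blocks of the sites `k` and `l` -/
def joinS {n : ℕ} (k l : Fin n) (r : Setoid (Option (Fin n))) : Setoid (Option (Fin n)) where
  r a b := r a b ∨ (r a (some k) ∧ r (some l) b) ∨ (r a (some l) ∧ r (some k) b)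
  iseqv := by
    refine ⟨fun a => Or.inl (r.refl a), ?_, ?_⟩
    · rintro a b (h | ⟨h1, h2⟩ | ⟨h1, h2⟩)
      · exact Or.inl (r.symm h)
      · exact Or.inr (Or.inr ⟨r.symm h2, r.symm h1⟩)
      · exact Or.inr (Or.inl ⟨r.symm h2, r.symm h1⟩)
    · rintro a b c (h | ⟨h1, h2⟩ | ⟨h1, h2⟩) (h' | ⟨h1', h2'⟩ | ⟨h1', h2'⟩)
      · exact Or.inl (r.trans h h')
      · exact Or.inr (Or.inl ⟨r.trans h h1', h2'⟩)
      · exact Or.inr (Or.inr ⟨r.trans h h1', h2'⟩)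
      · exact Or.inr (Or.inl ⟨h1, r.trans h2 h'⟩)
      · exact Or.inr (Or.inl ⟨h1, h2'⟩)
      · exact Or.inl (r.trans h1 h2')
      · exact Or.inr (Or.inr ⟨h1, r.trans h2 h'⟩)
      · exact Or.inl (r.trans h1 h2')
      · exact Or.inr (Or.inr ⟨h1, h2'⟩)

/-- the generators: `2k` isolates the site `k`, `2k+1` joins the sites `k` and `k+1` -/
def gen (n i : ℕ) (r : Setoid (Option (Fin n))) : Setoid (Option (Fin n)) :=
  if h : i % 2 = 0 ∧ i / 2 < n then cutS ⟨i / 2, h.2⟩ r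
  else if h : i % 2 = 1 ∧ i / 2 + 1 < n then joinS ⟨i / 2, by omega⟩ ⟨i / 2 + 1, h.2⟩ r
  else r

/-- some site is connected to the left side -/
def alive {n : ℕ} (r : Setoid (Option (Fin n))) : Prop := ∃ k : Fin n, r none (some k)

/-- the states which can be reached -/
inductive Reach (n : ℕ) : Setoid (Option (Fin n)) → Prop
  | top : Reach n ⊤
  | gen (i : ℕ) (r : Setoid (Option (Fin n))) : Reach n r → alive (gen n i r) →
      Reach n (W96CL.gen n i r)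

/-- the alive states which can be reached -/
def St (n : ℕ) := {r : Setoid (Option (Fin n)) // Reach n r}

/-- everything connected -/
def st0 (n : ℕ) : St n := ⟨⊤, Reach.top⟩

instance (n : ℕ) : Finite (Setoid (Option (Fin n))) :=
  Finite.of_injective (fun r : Setoid (Option (Fin n)) => fun a b => r a b) (by
    intro r s h
    ext a b
    exact iff_of_eq (congrFun (congrFun h a) b))

instance (n : ℕ) : Finite (St n) := Subtype.finite
noncomputable instance (n : ℕ) : Fintype (St n) := Fintype.ofFinite _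
noncomputable instance (n : ℕ) : DecidableEq (St n) := Classical.decEq _
instance (n : ℕ) : Nonempty (St n) := ⟨st0 n⟩

open Classical in
/-- matrix of the generator `i`, killing the dead states -/
noncomputable def ER (n i : ℕ) : Matrix (St n) (St n) ℝ :=
  fun τ σ => if gen n i σ.1 = τ.1 then 1 else 0

/-- the same over `ℂ` -/
noncomputable def EC (n i : ℕ) : Matrix (St n) (St n) ℂ := (ER n i).map (algebraMap ℝ ℂ)

/-- `∏ (p + (1-p) e_i)` over `i, i+2, ...` (`m` factors) -/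
noncomputable def layR (n : ℕ) (p : ℝ) : ℕ → ℕ → Matrix (St n) (St n) ℝ
  | _, 0 => 1
  | i, (m + 1) => (p • (1 : Matrix (St n) (St n) ℝ) + (1 - p) • ER n i) * layR n p (i + 2) m

/-- transfer matrix of one column: horizontal edges, then vertical edges -/
noncomputable def TT (n : ℕ) (p : ℝ) : Matrix (St n) (St n) ℝ :=
  layR n p 1 (n - 1) * layR n p 0 n

/-! ## 4. polynomials -/

/-- `(1 + 2 cos θ X + X²)^(2n)` -/
noncomputable def phi (n : ℕ) (θ : ℝ) : ℝ[X] :=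
  (1 + C (2 * Real.cos θ) * X + X ^ 2) ^ (2 * n)

/-- the functional relations satisfied by the eigenvalue `t` -/
structure Rel (n : ℕ) (θ : ℝ) (t : ℝ[X]) : Prop where
  deg : t.natDegree ≤ 4 * n
  pal : ∀ k, k ≤ 4 * n → t.coeff k = t.coeff (4 * n - k)
  zero : t.coeff 0 = -2
  two : ∃ V : ℝ[X], ∀ x : ℂ, aeval (om * x) t * aeval (om ^ 2 * x) t =
    aeval (om * x) (phi n θ) * aeval (om ^ 2 * x) (phi n θ) + aeval x (phi n θ) * aeval x V
  three : ∀ x : ℂ, aeval x t * aeval (om * x) t * aeval (om ^ 2 * x) t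
    = aeval (om * x) (phi n θ) * aeval (om ^ 2 * x) (phi n θ) * aeval x t
      + aeval x (phi n θ) * aeval (om ^ 2 * x) (phi n θ) * aeval (om * x) t
      + aeval x (phi n θ) * aeval (om * x) (phi n θ) * aeval (om ^ 2 * x) t
      - 2 * aeval x (phi n θ) * aeval (om * x) (phi n θ) * aeval (om ^ 2 * x) (phi n θ)

/-- the family of eigenvalues, `0 < θ ≤ π/3` -/
structure Fam (n : ℕ) (t : ℝ → ℝ[X]) (lam : ℝ → ℝ) : Prop where
  rel : ∀ θ, 0 < θ → θ ≤ Real.pi / 3 → Rel n θ (t θ)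
  cont : ∀ k, ContinuousOn (fun θ => (t θ).coeff k) (Set.Ioc 0 (Real.pi / 3))
  base : t (Real.pi / 3) = C (-2) * (1 - X) ^ 2 * (1 + X + X ^ 2) ^ (2 * n - 1)
  val : ∀ θ, 0 < θ → θ < Real.pi / 3 →
    aeval (Complex.exp ((Real.pi / 3 - θ : ℝ) * Complex.I)) (t θ)
      = (lam θ : ℂ) * aeval (Complex.exp ((Real.pi / 3 - θ : ℝ) * Complex.I)) (phi n θ)
  low : ∃ c : ℝ, 0 < c ∧ ∀ θ, Real.pi / 6 ≤ θ → θ < Real.pi / 3 → c * (Real.pi / 3 - θ) ≤ lam θ
  eig : ∀ θ, 0 < θ → θ < Real.pi / 3 → 0 < lam θ ∧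
    ∃ v : St n → ℝ, (∀ s, 0 < v s) ∧ (TT n (pp θ)).mulVec v = lam θ • v

/-- the factorization of `V` and of `phi - t` -/
structure P1s (n : ℕ) (θ : ℝ) (t Q : ℝ[X]) : Prop where
  monic : Q.Monic
  deg : Q.natDegree = 2 * n
  sq : Q.coeff 0 ^ 2 = 1
  kQ : ∀ x : ℂ, aeval x (phi n θ) - aeval x t = 3 * aeval (om * x) Q * aeval (om ^ 2 * x) Q
  VQ : ∀ x : ℂ, aeval (om * x) t * aeval (om ^ 2 * x) t =
    aeval (om * x) (phi n θ) * aeval (om ^ 2 * x) (phi n θ) + 3 * aeval x (phi n θ) * aeval x Q ^ 2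

/-- the same with the sign -/
structure P1 (n : ℕ) (θ : ℝ) (t Q : ℝ[X]) : Prop extends P1s n θ t Q where
  zero : Q.coeff 0 = -1

/-- the argument of `phi(ω x) Q(ω x)`, tending to `0` as `x → ∞` -/
noncomputable def PH (n : ℕ) (θ : ℝ) (Q : ℝ[X]) (x : ℝ) : ℝ :=
  ((((phi n θ * Q).map (algebraMap ℝ ℂ)).roots).map fun ξ : ℂ => (1 - om ^ 2 * ξ / (x : ℂ)).arg).sum

open Classical in
/-- the number of zeros of `t` in the closed sector `|arg| ≤ π/3` (with multiplicity) -/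
noncomputable def cnt (t : ℝ[X]) : ℕ :=
  Multiset.card (((t.map (algebraMap ℝ ℂ)).roots).filter fun z => z ≠ 0 ∧ |z.arg| ≤ Real.pi / 3)

/-- the zeros of `t` in the sector and the zeros of `Q` -/
structure Zer (n : ℕ) (θ : ℝ) (t Q : ℝ[X]) (z0 : ℝ) : Prop where
  z0pos : 0 < z0
  tfac : ∃ t1 : ℝ[X], t = (X - C (Real.exp z0)) * (X - C (Real.exp (-z0))) * t1 ∧
    ∀ z : ℂ, |z.im| ≤ Real.pi / 3 → aeval (Complex.exp z) t1 ≠ 0
  Qfac : ∃ Q1 : ℝ[X], Q = (X + 1) * Q1 ∧ Q1.Separable ∧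
    ∀ z : ℂ, aeval z Q1 = 0 → ∃ a : ℝ, 0 < a ∧ a ≠ Real.exp z0 ∧ a ≠ Real.exp (-z0) ∧ z = a
  lev : ∀ x : ℝ, 0 < x → t.eval x * Q.eval x = 0 → |PH n θ Q x| < Real.pi →
    ∀ y : ℝ, x < y → t.eval y * Q.eval y ≠ 0

/-- the output of the algebraic part, for fixed `n` and `θ` -/
structure SQ (n : ℕ) (θ : ℝ) (t Q : ℝ[X]) (z0 : ℝ) : Prop where
  n1 : 1 ≤ n
  th0 : 0 < θ
  th1 : θ < Real.pi / 3
  z0pos : 0 < z0
  rel : Rel n θ t
  p1 : P1 n θ t Q
  tfac : ∃ t1 : ℝ[X], t = (X - C (Real.exp z0)) * (X - C (Real.exp (-z0))) * t1 ∧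
    ∀ z : ℂ, |z.im| ≤ Real.pi / 3 → aeval (Complex.exp z) t1 ≠ 0
  Qfac : ∃ Q1 : ℝ[X], Q = (X + 1) * Q1 ∧
    ∀ z : ℂ, aeval z Q1 = 0 → ∃ a : ℝ, 0 < a ∧ a < Real.exp z0 ∧ z = a

/-! ## 5. analysis -/

/-- the kernel -/
noncomputable def kk (l : ℝ) : ℝ := 3 / (4 * Real.pi * Real.cosh (3 * l / 2))

/-- the kernel, complex argument -/
noncomputable def kc (z : ℂ) : ℂ := 3 / (4 * Real.pi * Complex.cosh (3 * z / 2))

/-- `psi(x) = (1 + 2 cos θ x + x²)^n` -/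
noncomputable def psi (n : ℕ) (θ : ℝ) (x : ℂ) : ℂ := (1 + 2 * Real.cos θ * x + x ^ 2) ^ n

/-- `s(z) = t(e^z) / phi(e^z)` -/
noncomputable def sC (n : ℕ) (θ : ℝ) (t : ℝ[X]) (z : ℂ) : ℂ :=
  aeval (Complex.exp z) t / psi n θ (Complex.exp z) ^ 2

/-- `r(z) = √3 Q(-e^z) psi(-e^z) / (psi(-ω e^z) psi(-ω² e^z))` -/
noncomputable def rC (n : ℕ) (θ : ℝ) (Q : ℝ[X]) (z : ℂ) : ℂ :=
  (Real.sqrt 3 : ℂ) * aeval (-Complex.exp z) Q * psi n θ (-Complex.exp z) /
    (psi n θ (-(om * Complex.exp z)) * psi n θ (-(om ^ 2 * Complex.exp z)))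

/-- the driving factor of a zero at `±iθ` -/
noncomputable def RR (θ : ℝ) (z : ℂ) : ℂ :=
  (Complex.cosh (3 * z / 2) - Real.cos (3 * θ / 2)) /
    (Complex.cosh (3 * z / 2) + Real.cos (3 * θ / 2))

/-- the same on the real line -/
noncomputable def Rr (θ u : ℝ) : ℝ :=
  (Real.cosh (3 * u / 2) - Real.cos (3 * θ / 2)) / (Real.cosh (3 * u / 2) + Real.cos (3 * θ / 2))

/-- hypotheses for the representation in the strip: `F` is analytic without zeros near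
`|im| ≤ π/3`, real and positive on the real line, and tends to `L` exponentially -/
structure Strip (F : ℂ → ℂ) (L : ℝ) : Prop where
  L0 : 0 < L
  an : ∃ a : ℝ, Real.pi / 3 < a ∧ ∀ z : ℂ, |z.im| < a → DifferentiableAt ℂ F z ∧ F z ≠ 0
  conj : ∀ z : ℂ, |z.im| ≤ Real.pi / 3 → F (starRingEnd ℂ z) = starRingEnd ℂ (F z)
  pos : ∀ u : ℝ, 0 < (F u).re
  lim : ∃ K c : ℝ, 0 < c ∧ ∀ z : ℂ, |z.im| ≤ Real.pi / 3 → ‖F z - L‖ ≤ K * Real.exp (-(c * |z.re|))

/-- the integral equations and everything which is needed for the asymptotics -/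
structure TBA (n : ℕ) (θ z0 : ℝ) (s r : ℝ → ℝ) (lam : ℝ) : Prop where
  n1 : 1 ≤ n
  th0 : 0 < θ
  th1 : θ < Real.pi / 3
  z0pos : 0 < z0
  s_even : ∀ u, s (-u) = s u
  r_odd : ∀ u, r (-u) = -r u
  s_diff : ContDiff ℝ 1 s
  r_diff : ContDiff ℝ 1 r
  s_lim : ∃ K, ∀ u, |s u + 2| ≤ K * Real.exp (-|u|) ∧ |deriv s u| ≤ K * Real.exp (-|u|)
  r_lim : ∃ K, ∀ u, 0 ≤ u → |r u - Real.sqrt 3| ≤ K * Real.exp (-u) ∧ |deriv r u| ≤ K * Real.exp (-u)
  s_lt : ∀ u, s u < 1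
  s_ge : ∀ u, -2 ≤ s u
  s_pos : ∀ u, |u| < z0 → 0 < s u
  s_neg : ∀ u, z0 < |u| → s u < 0
  r_pos : ∀ u, 0 < u → 0 < r u
  r_le : ∀ u, 0 ≤ u → r u ≤ Real.sqrt 3 * (Real.tanh (3 * u / 4) * Rr θ u ^ n)
  rep_r : ∀ u, 0 < u → Real.log (r u) = Real.log (Real.tanh (3 * u / 4)) + n * Real.log (Rr θ u)
    + ∫ v : ℝ, kk (u - v) * Real.log (1 - s v)
  rep_s : ∀ u, 0 ≤ u → u ≠ z0 → Real.log |s u| = Real.log |Real.tanh (3 * (u - z0) / 4)|
    + Real.log (Real.tanh (3 * (u + z0) / 4)) + ∫ v : ℝ, kk (u - v) * Real.log (1 + r v ^ 2)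
  quant : n * (2 * Real.arctan (Real.cos (3 * θ / 2) / Real.sinh (3 * z0 / 2)))
    + Real.arccos (Real.tanh (3 * z0 / 2))
    + 3 / (4 * Real.pi) * ∫ v : ℝ, Real.log (1 - s v) / Real.sinh (3 * (v - z0) / 2) = Real.pi / 2
  harn : ∀ l : ℝ, 0 < l → l < 1 → ∀ u v : ℝ, Real.log 3 - Real.log (1 - s u) ≤
    Real.exp (3 / (2 * l) * |u - v|) * (Real.log 3 - Real.log (1 - s v))
  lam0 : 0 < lam
  lam_eq : -Real.log lam = Real.log ((Real.cosh (3 * z0 / 2) + Real.sin (3 * θ / 2)) /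
      (Real.cosh (3 * z0 / 2) - Real.sin (3 * θ / 2)))
    - ∫ v in Set.Ioi (0 : ℝ), 3 / (2 * Real.pi) * Real.sin (3 * θ / 2) * Real.cosh (3 * v / 2) /
      (Real.sinh (3 * v / 2) ^ 2 + Real.sin (3 * θ / 2) ^ 2) * Real.log (1 + r v ^ 2)

end W96CL
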