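import Pool.Agent.W96.CL.Stm2
set_option autoImplicit false
open Polynomial Filter Topology MeasureTheory
namespace W96CL

theorem cl_surj : S_surj := by
  intro p hp0 hp1
  have hpi := Real.pi_pos
  have hden : ∀ θ ∈ Set.Icc 0 (Real.pi / 3), Real.sin (Real.pi / 3 + θ) ≠ 0 := by
    intro θ hθ
    exact (Real.sin_pos_of_pos_of_lt_pi (by linarith [hθ.1]) (by linarith [hθ.2])).ne'
  have hcont : ContinuousOn pp (Set.Icc 0 (Real.pi / 3)) := by
    unfold pp
    exact ContinuousOn.div (by fun_prop) (by fun_prop) hden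
  have h0 : pp 0 = 1 := by
    unfold pp
    rw [sub_zero, add_zero, div_self]
    exact (Real.sin_pos_of_pos_of_lt_pi (by linarith) (by linarith)).ne'
  have h1 : pp (Real.pi / 3) = 0 := by
    unfold pp
    rw [sub_self, Real.sin_zero, zero_div]
  have himg := intermediate_value_Icc' (by linarith : (0 : ℝ) ≤ Real.pi / 3) hcont
  rw [h0, h1] at himg
  obtain ⟨θ, hθ, hpθ⟩ := himg ⟨hp0.le, hp1.le⟩
  refine ⟨θ, ?_, ?_, hpθ⟩
  · rcases hθ.1.lt_or_eq with h | h
    · exact h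
    · rw [← h, h0] at hpθ; linarith
  · rcases hθ.2.lt_or_eq with h | h
    · exact h
    · rw [h, h1] at hpθ; linarith

theorem cl_main3 (h2 : S_main2) (he : S_ell) (hn : S_ncard) : S_main3 := by
  obtain ⟨c, C, hc, h⟩ := he
  refine ⟨c / 2, (1 + 1 / 2) * (2 * Real.exp (Real.pi / 3)) * C, by positivity, ?_⟩
  intro L l x hL hl hx0 hx1 hr
  filter_upwards [h2 L l hL hl (1 / 2) (by norm_num)] with n hh
  obtain ⟨a1, a2, -, -⟩ := hh
  obtain ⟨b1, b2⟩ := h x hx0 hx1
  have e1 : Real.pi / 3 * (ellA x / ellB x) = Real.pi * L / (3 * l) := by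
    rw [← hr]; field_simp
  rw [e1] at b1 b2
  rw [hn]
  constructor
  · calc c / 2 * cardyF x = (1 - 1 / 2) * (c * cardyF x) := by ring
      _ ≤ (1 - 1 / 2) * Real.exp (-(Real.pi * L / (3 * l))) := by gcongr
      _ ≤ _ := a1
  · calc _ ≤ (1 + 1 / 2) * (2 * Real.exp (Real.pi / 3) * Real.exp (-(Real.pi * L / (3 * l)))) := a2
      _ ≤ (1 + 1 / 2) * (2 * Real.exp (Real.pi / 3) * (C * cardyF x)) := by gcongr
      _ = _ := by ring

end W96CL
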