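import Pool.Agent.W119.CL.QUANT
import Pool.Agent.W12.CL.ALPHA
import Pool.Agent.W12.CL.TWO
import Pool.Agent.W125.CL.MASS
import Pool.Agent.W131.CL.DIVLIM
import Pool.Agent.W131.CL.SQRTC
import Pool.Agent.W131.CL.VCONT
import Pool.Agent.W150.CL.TRACE
import Pool.Agent.W18.CL.DEREQ
import Pool.Agent.W18.CL.FAM
import Pool.Agent.W199.CL.BASE
import Pool.Agent.W237.CL.CONS
import Pool.Agent.W237.CL.LAM
import Pool.Agent.W237.CL.TBAA
import Pool.Agent.W240.CL.REP
import Pool.Agent.W29.CL.LAYER
import Pool.Agent.W305.CL.NORM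
import Pool.Agent.W310.CL.PF
import Pool.Agent.W327.CL.CNTC
import Pool.Agent.W366.CL.NCARD
import Pool.Agent.W368.CL.Harn
import Pool.Agent.W378.CL.LINK
import Pool.Agent.W381.CL.RFAC
import Pool.Agent.W403.CL.CLOPEN
import Pool.Agent.W439.CL.LIM
import Pool.Agent.W45.CL.COMM
import Pool.Agent.W461.CL.FACT
import Pool.Agent.W469.CL.EIG
import Pool.Agent.W469.CL.REL
import Pool.Agent.W481.CL.GLUE
import Pool.Agent.W501.CL.DBL
import Pool.Agent.W554.CL.RS
import Pool.Agent.W56.CL.ERR
import Pool.Agent.W571.CL.IRR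
import Pool.Agent.W571.CL.POLY
import Pool.Agent.W59.CL.DILOG
import Pool.Agent.W59.CL.EVF
import Pool.Agent.W59.CL.INT
import Pool.Agent.W612.CL.CMP
import Pool.Agent.W621.CL.SWAP
import Pool.Agent.W67.CL.ELL
import Pool.Agent.W67.CL.MAIN2
import Pool.Agent.W675.CL.SUBM
import Pool.Agent.W688.CL.FLIP
import Pool.Agent.W688.CL.YBE
import Pool.Agent.W704.CL.ASYM
import Pool.Agent.W705.CL.TSUM
import Pool.Agent.W718.CL.HFAC
import Pool.Agent.W723.CL.DUAL
import Pool.Agent.W74.CL.SQA
import Pool.Agent.W741.CL.TURN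
import Pool.Agent.W748.CL.MAIN1
import Pool.Agent.W762.CL.ZERO
import Pool.Agent.W849.CL.STRIP
import Pool.Agent.W904.CL.BOUND
import Pool.Agent.W918.CL.ROOTC
import Pool.Agent.W924.CL.CROSS
import Pool.Agent.W933.CL.PHASE
import Pool.Agent.W946.CL.STAR
import Pool.Agent.W96.CL.SURJ
import Pool.Agent.W976.CL.NEAR
import Pool.Agent.W976.CL.ORD
import Pool.Agent.W976.CL.RAY
import Pool.Agent.W99.CL.POS
set_option autoImplicit false

/-! Assembly of the project CL. -/

namespace W96CL

theorem f_comm : S_comm := cl_comm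
theorem f_trace : S_trace := cl_trace f_comm
theorem f_swap : S_swap := cl_swap f_comm f_trace cl_ybe
theorem f_cross : S_cross := cl_cross f_comm f_trace
theorem f_real : S_real := cl_real f_comm f_trace
theorem f_zero : S_zero := cl_zero f_comm f_trace
theorem f_fuse : S_fuse := cl_fuse f_comm f_trace
theorem f_chain : S_chain := cl_chain f_comm f_zero f_fuse
theorem f_layer : S_layer := cl_layer f_swap cl_flip
theorem f_special : S_special := cl_special f_comm
theorem f_alpha : S_alpha := cl_alpha f_swap cl_unit f_cross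
theorem f_two : S_two := cl_two f_alpha cl_poly cl_divlim
theorem f_irr : S_irr := cl_irr cl_rep
theorem f_pf : S_pf := cl_pf cl_rep f_irr
theorem f_eig : S_eig := cl_eig cl_rep f_layer f_special f_real cl_poly cl_norm
theorem f_rel : S_rel := cl_rel cl_rep f_cross f_chain f_two cl_norm
theorem f_fam : S_fam := cl_fam cl_rep f_pf f_eig f_rel f_chain cl_base cl_norm cl_poly
theorem f_cnt : S_cntcont := W327.cl_cntcont cl_rootcont
theorem f_turn : S_turn := cl_turn cl_phase cl_turnsum cl_cons
theorem f_clopen : S_clopen :=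
  cl_clopen cl_base cl_fact cl_ray cl_sqrtcont cl_vcont f_cnt f_turn cl_cons
theorem f_sq : S_sq := cl_sq f_clopen f_turn cl_near cl_ord
theorem f_rs : S_rs := cl_rs cl_cons
theorem f_lim : S_lim := cl_lim cl_cons f_rs
theorem f_hfac : S_hfac := cl_hfac f_rs f_lim
theorem f_rfac : S_rfac := cl_rfac f_rs f_lim
theorem f_bound : S_bound := cl_bound cl_strip f_hfac f_rfac
theorem f_harn : S_harn := cl_harn cl_strip f_rs f_lim f_bound
theorem f_quant : S_quant := cl_quant cl_strip f_rs f_lim f_rfac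
theorem f_lam : S_lam := cl_lam cl_strip f_rs f_hfac
theorem f_tba : S_tba := cl_tba cl_strip f_rs f_lim f_hfac f_rfac f_bound f_harn f_quant f_lam
theorem f_dereq : S_dereq := cl_dereq cl_ev
theorem f_star : S_star := cl_star cl_int1 cl_int2 cl_dbl cl_ev f_dereq
theorem f_pos : S_pos := cl_pos cl_ev
theorem f_mass : S_mass := cl_mass f_pos cl_ev
theorem f_err : S_err := cl_err f_pos f_mass cl_ev
theorem f_cmp : S_cmp := cl_cmp f_pos cl_ev
theorem f_asym : S_asym := cl_asym cl_dilog f_star f_err f_cmp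
theorem f_sub : S_sub := cl_sub cl_link
theorem f_glue : S_glue := cl_glue cl_dual f_sub
theorem f_main1 : S_main1 := cl_main1 cl_link f_irr f_fam f_sq f_tba f_asym
theorem f_main2 : S_main2 := cl_main2 f_main1 f_sub cl_dual f_glue
theorem f_main3 : S_main3 := cl_main3 f_main2 cl_ell cl_ncard

end W96CL
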