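import Pool.Agent.W96.CL.Defs
set_option autoImplicit false

/-! Statements of the parts of the project CL (each part proves `theorem x : S_x`, possibly from
the statements named in its subtask). -/

open Polynomial Filter Topology MeasureTheory

namespace W96CL

/-! ## A. Temperley-Lieb algebra -/

def S_comm : Prop := ∀ (A : Type) [Ring A] [Algebra ℂ A] (e : ℕ → A) (N : ℕ), TL e N →
  ∀ (x : ℂ) (i j : ℕ) (L : List ℂ), i + 1 < j →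
    (j + L.length < N → Commute (e i) (BB e x j L)) ∧
    (j + L.length ≤ N → Commute (e i) (DD e x j L))

def S_trace : Prop := ∀ (A : Type) [Ring A] [Algebra ℂ A] (e : ℕ → A) (N : ℕ), TL e N →
  ∀ (x : ℂ) (i : ℕ) (L : List ℂ), i + L.length + 1 < N →
    e i * BB e x (i + 1) L * e i = e i * DD e x (i + 2) L

def S_unit : Prop := ∀ (A : Type) [Ring A] [Algebra ℂ A] (e : ℕ → A) (N : ℕ), TL e N →
  ∀ (i : ℕ) (a b : ℂ), i + 1 < N → a * b = om → XX e i a * XX e i b = (wF a * wF b) • (1 : A)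

def S_ybe : Prop := ∀ (A : Type) [Ring A] [Algebra ℂ A] (e : ℕ → A) (N : ℕ), TL e N →
  ∀ (i : ℕ) (a b c : ℂ), i + 2 < N → b * uu = a * c →
    XX e i a * XX e (i + 1) b * XX e i c = XX e (i + 1) c * XX e i b * XX e (i + 1) a

def S_swap : Prop := ∀ (A : Type) [Ring A] [Algebra ℂ A] (e : ℕ → A) (N : ℕ), TL e N →
  ∀ (x : ℂ) (i : ℕ) (P L : List ℂ) (z z' : ℂ), z ≠ 0 → z' ≠ 0 →
    (i + P.length + L.length + 2 < N →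
      XX e (i + 1 + P.length) (uu * z' / z) * BB e x i (P ++ z :: z' :: L) =
        BB e x i (P ++ z' :: z :: L) * XX e (i + 1 + P.length) (uu * z' / z)) ∧
    (i + P.length + L.length + 2 ≤ N →
      XX e (i + P.length) (uu * z' / z) * DD e x i (P ++ z :: z' :: L) =
        DD e x i (P ++ z' :: z :: L) * XX e (i + P.length) (uu * z' / z))

def S_flip : Prop := ∀ (A : Type) [Ring A] [Algebra ℂ A] (e : ℕ → A)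
  (x : ℂ) (i : ℕ) (L : List ℂ) (z : ℂ), z ≠ 0 →
    DD e x i (z⁻¹ :: L) = DD e x i (z :: L) ∧ DD e x i (L ++ [z⁻¹]) = DD e x i (L ++ [z])

def S_cross : Prop := ∀ (A : Type) [Ring A] [Algebra ℂ A] (e : ℕ → A) (N : ℕ), TL e N →
  ∀ (x : ℂ) (i : ℕ) (L : List ℂ), (∀ z ∈ L, z ≠ 0) → i + L.length ≤ N → x ≠ 0 →
    (x ^ (2 * L.length)) • DD e x⁻¹ i L = DD e x i L

def S_real : Prop := ∀ (S : Type) [Fintype S] [DecidableEq S] (e : ℕ → Matrix S S ℂ) (N : ℕ),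
  TL e N → (∀ i, (e i).map (starRingEnd ℂ) = e i) →
  ∀ (x : ℂ) (i : ℕ) (L : List ℂ), (∀ z ∈ L, ‖z‖ = 1) → i + L.length ≤ N →
    DD e (starRingEnd ℂ x) i L = (DD e x i L).map (starRingEnd ℂ)

def S_zero : Prop := ∀ (A : Type) [Ring A] [Algebra ℂ A] (e : ℕ → A) (N : ℕ), TL e N →
  ∀ (i : ℕ) (L : List ℂ) (z z' : ℂ), i + L.length + 2 ≤ N →
    e i * DD e 0 i (z :: z' :: L) = e i * DD e 0 (i + 2) L ∧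
    DD e 0 i [z, z'] = (-2 : ℂ) • (1 : A) + (3 : ℂ) • e i

def S_fuse : Prop := ∀ (A : Type) [Ring A] [Algebra ℂ A] (e : ℕ → A) (N : ℕ), TL e N →
  ∀ (x : ℂ) (i : ℕ) (L : List ℂ), i + L.length + 2 ≤ N →
    e i * DD e x i (uu :: uu⁻¹ :: L) = ((1 + x + x ^ 2) ^ 2) • (e i * DD e x (i + 2) L) ∧
    DD e x i [uu, uu⁻¹] = (-2 * (1 - x) ^ 2 * (1 + x + x ^ 2)) • (1 : A)
      + (3 * (1 + x + x ^ 2) * (1 - x + x ^ 2)) • e i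

/-- `e_i e_{i+2} ...` (`m` factors) -/
def lay0 {A : Type} [Ring A] (e : ℕ → A) : ℕ → ℕ → A
  | _, 0 => 1
  | i, (m + 1) => e i * lay0 e (i + 2) m

def S_chain : Prop := ∀ (A : Type) [Ring A] [Algebra ℂ A] (e : ℕ → A) (n : ℕ), 1 ≤ n →
  TL e (2 * n) → lay0 e 0 n = 0 →
    (∀ z : ℂ, lay0 e 0 (n - 1) * DD e 0 0 (alt z n) = (-2 : ℂ) • lay0 e 0 (n - 1)) ∧
    (∀ x : ℂ, lay0 e 0 (n - 1) * DD e x 0 (alt uu n) =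
      (-2 * (1 - x) ^ 2 * (1 + x + x ^ 2) ^ (2 * n - 1)) • lay0 e 0 (n - 1))

def S_layer : Prop := ∀ (A : Type) [Ring A] [Algebra ℂ A] (e : ℕ → A) (n : ℕ), 1 ≤ n →
  TL e (2 * n) → ∀ (x z : ℂ), z ≠ 0 →
    Commute (Lay e (uu / z ^ 2) 1 (n - 1) * Lay e (uu / z ^ 2) 0 n) (DD e x 0 (alt z n))

def S_special : Prop := ∀ (A : Type) [Ring A] [Algebra ℂ A] (e : ℕ → A) (n : ℕ), 1 ≤ n →
  TL e (2 * n) → ∀ (z : ℂ), z ≠ 0 →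
    DD e (uu / z) 0 (alt z n) = ((1 + uu) ^ (2 * n) * (1 + uu / z ^ 2)) •
      (Lay e (uu / z ^ 2) 1 (n - 1) * Lay e (uu / z ^ 2) 0 n)

def S_alpha : Prop := ∀ (A : Type) [Ring A] [Algebra ℂ A] (e : ℕ → A) (L : List ℂ),
  TL e L.length → (∀ z ∈ L, z ≠ 0) → (∀ z ∈ L, ∀ z' ∈ L, z ^ 2 + z * z' + z' ^ 2 ≠ 0) →
  ∀ z ∈ L, ∀ x : ℂ, (x = -z⁻¹ ∨ x = -z) →
    DD e (om * x) 0 L * DD e (om ^ 2 * x) 0 L = (phL (om * x) L * phL (om ^ 2 * x) L) • (1 : A)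

/-! ## B. the representation -/

def S_rep : Prop := ∀ n : ℕ, 1 ≤ n → TL (EC n) (2 * n) ∧ lay0 (EC n) 0 n = 0 ∧
  lay0 (ER n) 0 n = 0 ∧ (∀ τ σ, lay0 (ER n) 1 (n - 1) τ σ = if τ = st0 n then 1 else 0) ∧
  (lay0 (EC n) 0 (n - 1)).mulVec (fun s => if s = st0 n then 1 else 0) ≠ 0 ∧
  (∀ v : St n → ℝ, (∀ s, 0 < v s) → ∃ τ, 0 < ((lay0 (ER n) 0 (n - 1)).mulVec v) τ)

def S_irr : Prop := ∀ (n : ℕ) (p : ℝ), 1 ≤ n → 0 < p → p < 1 →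
  (∀ τ σ, 0 ≤ TT n p τ σ) ∧ (∀ σ, 0 < TT n p σ σ) ∧
  (∃ m : ℕ, ∀ τ σ, 0 < (∑ l ∈ Finset.range m, TT n p ^ l) τ σ) ∧
  p * (1 - p) ^ (2 * n - 2) ≤ TT n p (st0 n) (st0 n)

def S_pf : Prop := ∀ n : ℕ, 1 ≤ n → ∃ (v : ℝ → St n → ℝ) (L : ℝ → ℝ),
  (∀ p, 0 < p → p < 1 → (∀ s, 0 < v p s) ∧ ∑ s, v p s = 1 ∧ 0 < L p ∧
    p * (1 - p) ^ (2 * n - 2) ≤ L p ∧ (TT n p).mulVec (v p) = L p • v p ∧
    ∀ u : St n → ℂ, ((TT n p).map (algebraMap ℝ ℂ)).mulVec u = (L p : ℂ) • u →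
      ∃ c : ℂ, u = fun s => c * (v p s : ℂ)) ∧
  (∀ s, ContinuousOn (fun p => v p s) (Set.Ioo 0 1)) ∧
  (∀ s, Tendsto (fun p => v p s) (𝓝[>] 0) (𝓝 (if s = st0 n then 1 else 0)))

/-! ## C. the family of eigenvalues -/

def S_poly : Prop := ∀ (S : Type) [Fintype S] [DecidableEq S] (e : ℕ → Matrix S S ℂ)
  (i : ℕ) (L : List ℂ) (a b : S),
    ∃ P : ℂ[X], P.natDegree ≤ 2 * L.length ∧ ∀ x : ℂ, DD e x i L a b = P.eval x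

def S_divlim : Prop := ∀ (d : ℕ) (f g : ℕ → ℂ[X]) (F G : ℂ[X]), (∀ m, (f m).natDegree ≤ d) →
  (∀ m, g m ∣ f m) → (∀ x : ℂ, Tendsto (fun m => (f m).eval x) atTop (𝓝 (F.eval x))) →
  (∀ x : ℂ, Tendsto (fun m => (g m).eval x) atTop (𝓝 (G.eval x))) → G ≠ 0 → G ∣ F

def S_two : Prop := ∀ (S : Type) [Fintype S] [DecidableEq S] (e : ℕ → Matrix S S ℂ) (L : List ℂ),
  TL e L.length → (∀ z ∈ L, ‖z‖ = 1) → ∀ a b : S, ∃ P : ℂ[X], ∀ x : ℂ,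
    (DD e (om * x) 0 L * DD e (om ^ 2 * x) 0 L) a b
      - phL (om * x) L * phL (om ^ 2 * x) L * (if a = b then 1 else 0) = phL x L * P.eval x

/-- the relation between the two normalizations -/
def S_norm : Prop := ∀ (n : ℕ) (θ : ℝ), 0 < θ → θ < Real.pi / 3 → 0 < pp θ ∧ pp θ < 1 ∧
  (1 + uu / Complex.exp (θ * Complex.I) ^ 2 ≠ 0) ∧
  (∀ i m : ℕ, Lay (EC n) (uu / Complex.exp (θ * Complex.I) ^ 2) i m =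
    ((1 + uu / Complex.exp (θ * Complex.I) ^ 2) ^ m) •
      (layR n (pp θ) i m).map (algebraMap ℝ ℂ)) ∧
  (∀ x : ℂ, phL x (alt (Complex.exp (θ * Complex.I)) n) = aeval x (phi n θ))

def S_eig : Prop := ∀ (n : ℕ) (θ : ℝ) (v : St n → ℝ) (l : ℝ), 1 ≤ n → 0 < θ → θ < Real.pi / 3 →
  (∀ s, 0 < v s) → ∑ s, v s = 1 → (TT n (pp θ)).mulVec v = l • v →
  (∀ u : St n → ℂ, ((TT n (pp θ)).map (algebraMap ℝ ℂ)).mulVec u = (l : ℂ) • u →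
      ∃ c : ℂ, u = fun s => c * (v s : ℂ)) →
  ∃ t : ℝ[X], t.natDegree ≤ 4 * n ∧
    (∀ x : ℂ, (DD (EC n) x 0 (alt (Complex.exp (θ * Complex.I)) n)).mulVec (fun s => (v s : ℂ))
      = aeval x t • (fun s => (v s : ℂ))) ∧
    aeval (Complex.exp ((Real.pi / 3 - θ : ℝ) * Complex.I)) t
      = (l : ℂ) * aeval (Complex.exp ((Real.pi / 3 - θ : ℝ) * Complex.I)) (phi n θ)

def S_rel : Prop := ∀ (n : ℕ) (θ : ℝ) (v : St n → ℝ) (t : ℝ[X]), 1 ≤ n → 0 < θ →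
  θ < Real.pi / 3 → (∀ s, 0 < v s) → t.natDegree ≤ 4 * n →
  (∀ x : ℂ, (DD (EC n) x 0 (alt (Complex.exp (θ * Complex.I)) n)).mulVec (fun s => (v s : ℂ))
      = aeval x t • (fun s => (v s : ℂ))) → Rel n θ t

def S_fam : Prop := ∀ n : ℕ, 1 ≤ n → ∃ (t : ℝ → ℝ[X]) (lam : ℝ → ℝ), Fam n t lam

/-! ## D. polynomials -/

def S_base : Prop := ∀ n : ℕ, 1 ≤ n →
  Rel n (Real.pi / 3) (C (-2) * (1 - X) ^ 2 * (1 + X + X ^ 2) ^ (2 * n - 1)) ∧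
  P1 n (Real.pi / 3) (C (-2) * (1 - X) ^ 2 * (1 + X + X ^ 2) ^ (2 * n - 1))
    ((X + 1) * (X - 1) ^ (2 * n - 1)) ∧
  cnt (C (-2) * (1 - X) ^ 2 * (1 + X + X ^ 2) ^ (2 * n - 1)) = 2

def S_fact : Prop := ∀ (n : ℕ) (θ : ℝ) (t V : ℝ[X]), 1 ≤ n → 0 < θ → θ ≤ Real.pi / 3 →
  Rel n θ t → (∀ x : ℂ, aeval (om * x) t * aeval (om ^ 2 * x) t =
    aeval (om * x) (phi n θ) * aeval (om ^ 2 * x) (phi n θ) + aeval x (phi n θ) * aeval x V) →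
  (∀ x : ℂ, ¬ (aeval x V = 0 ∧ aeval (om * x) V = 0 ∧ aeval (om ^ 2 * x) V = 0)) →
  ∃ Q : ℝ[X], P1s n θ t Q ∧ V = C 3 * Q ^ 2

def S_ray : Prop := ∀ (n : ℕ) (θ : ℝ) (t Q : ℝ[X]), 1 ≤ n → 0 < θ → θ ≤ Real.pi / 3 →
  P1s n θ t Q → ∀ ρ : ℝ, 0 < ρ → aeval (ρ * uu : ℂ) t ≠ 0 ∧ aeval (ρ * uu⁻¹ : ℂ) t ≠ 0

def S_cons : Prop := ∀ (n : ℕ) (θ : ℝ) (t Q : ℝ[X]), 1 ≤ n → 0 < θ → θ ≤ Real.pi / 3 →
  Rel n θ t → P1 n θ t Q →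
    (∀ x : ℂ, aeval x t * aeval x Q = -(aeval (om * x) (phi n θ) * aeval (om * x) Q)
      - aeval (om ^ 2 * x) (phi n θ) * aeval (om ^ 2 * x) Q) ∧
    (∀ x : ℂ, x ≠ 0 → x ^ (2 * n) * aeval x⁻¹ Q = -aeval x Q) ∧ Q.eval (-1) = 0 ∧ Q.eval 1 = 0

def S_rootcont : Prop := ∀ (d : ℕ) (P : ℕ → ℂ[X]) (Q : ℂ[X]),
  (∀ m, (P m).Monic ∧ (P m).natDegree = d) → Q.Monic → Q.natDegree = d →
  (∀ k, Tendsto (fun m => (P m).coeff k) atTop (𝓝 (Q.coeff k))) →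
  ∃ φ : ℕ → ℕ, StrictMono φ ∧ ∃ (ξ : ℕ → Fin d → ℂ) (η : Fin d → ℂ),
    (∀ m, P (φ m) = ∏ i, (X - C (ξ m i))) ∧ Q = ∏ i, (X - C (η i)) ∧
    ∀ i, Tendsto (fun m => ξ m i) atTop (𝓝 (η i))

def S_sqrtcont : Prop := ∀ (N : ℕ) (Θ : Set ℝ) (W : ℝ → ℝ[X]),
  (∀ θ ∈ Θ, (W θ).Monic ∧ (W θ).natDegree = 2 * N) →
  (∀ k, ContinuousOn (fun θ => (W θ).coeff k) Θ) →
  ∃ Q : ℝ → ℝ[X], (∀ θ ∈ Θ, (Q θ).Monic ∧ (Q θ).natDegree = N) ∧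
    (∀ k, ContinuousOn (fun θ => (Q θ).coeff k) Θ) ∧
    ∀ θ ∈ Θ, ∀ P : ℝ[X], P.Monic → W θ = P ^ 2 → Q θ = P

def S_vcont : Prop := ∀ (n : ℕ) (Θ : Set ℝ) (t : ℝ → ℝ[X]), 1 ≤ n →
  (∀ θ ∈ Θ, Rel n θ (t θ)) → (∀ k, ContinuousOn (fun θ => (t θ).coeff k) Θ) →
  ∃ W : ℝ → ℝ[X], (∀ θ ∈ Θ, (W θ).Monic ∧ (W θ).natDegree = 4 * n) ∧
    (∀ k, ContinuousOn (fun θ => (W θ).coeff k) Θ) ∧
    ∀ θ ∈ Θ, ∀ x : ℂ, aeval (om * x) (t θ) * aeval (om ^ 2 * x) (t θ) =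
      aeval (om * x) (phi n θ) * aeval (om ^ 2 * x) (phi n θ)
        + aeval x (phi n θ) * (3 * aeval x (W θ))

/-- the number of zeros in the sector is locally constant -/
def S_cntcont : Prop := ∀ (d : ℕ) (t : ℕ → ℝ[X]) (T : ℝ[X]) (c : ℝ), c ≠ 0 →
  (∀ m, (t m).natDegree = d ∧ (t m).leadingCoeff = c) → T.natDegree = d → T.leadingCoeff = c →
  (∀ k, Tendsto (fun m => (t m).coeff k) atTop (𝓝 (T.coeff k))) → T.coeff 0 ≠ 0 →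
  (∀ ρ : ℝ, 0 < ρ → aeval (ρ * uu : ℂ) T ≠ 0 ∧ aeval (ρ * uu⁻¹ : ℂ) T ≠ 0) →
  ∀ᶠ m in atTop, cnt (t m) = cnt T

/-- the continuous argument of `∏ (x - ξ)`, tending to `0` at infinity -/
noncomputable def Phs (R : Multiset ℂ) (x : ℝ) : ℝ := (R.map fun ξ : ℂ => (1 - ξ / (x : ℂ)).arg).sum

def S_phase : Prop := ∀ R : Multiset ℂ, (∀ ξ ∈ R, ξ ≠ 0 ∧ ¬ (ξ.im = 0 ∧ 0 < ξ.re)) →
  ContinuousOn (Phs R) (Set.Ioi 0) ∧ Tendsto (Phs R) atTop (𝓝 0) ∧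
  Tendsto (Phs R) (𝓝[>] 0) (𝓝 (R.map fun ξ : ℂ => (-ξ).arg).sum) ∧
  ∀ x : ℝ, 0 < x → (R.map fun ξ => ((x : ℂ) - ξ)).prod =
    (‖(R.map fun ξ => ((x : ℂ) - ξ)).prod‖ : ℂ) * Complex.exp (Phs R x * Complex.I)

def S_turnsum : Prop := ∀ Q : ℝ[X], Q.eval 0 ≠ 0 → (∀ ρ : ℝ, 0 < ρ → aeval (ρ * om : ℂ) Q ≠ 0) →
  (((Q.map (algebraMap ℝ ℂ)).roots).map fun ξ => (-(om ^ 2 * ξ)).arg).sum =
    Real.pi / 3 * Q.natDegree - Real.pi *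
      (((Q.map (algebraMap ℝ ℂ)).roots).countP fun ξ => 2 * Real.pi / 3 < |ξ.arg|)

def S_turn : Prop := ∀ (n : ℕ) (θ : ℝ) (t Q : ℝ[X]), 1 ≤ n → 0 < θ → θ < Real.pi / 3 →
  Rel n θ t → P1 n θ t Q → cnt t = 2 → ∃ z0 : ℝ, Zer n θ t Q z0

def S_clopen : Prop := ∀ (n : ℕ) (t : ℝ → ℝ[X]) (lam : ℝ → ℝ), 1 ≤ n → Fam n t lam →
  ∃ Q : ℝ → ℝ[X], (∀ θ ∈ Set.Ioc 0 (Real.pi / 3), P1 n θ (t θ) (Q θ) ∧ cnt (t θ) = 2) ∧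
    (∀ k, ContinuousOn (fun θ => (Q θ).coeff k) (Set.Ioc 0 (Real.pi / 3))) ∧
    Q (Real.pi / 3) = (X + 1) * (X - 1) ^ (2 * n - 1)

/-- `Q > 0` to the right of the largest zero of `t` -/
def Ord (t Q : ℝ[X]) (z0 : ℝ) : Prop := ∀ y : ℝ, Real.exp z0 ≤ y → 0 < Q.eval y

def S_near : Prop := ∀ (n : ℕ) (t Q : ℝ → ℝ[X]) (lam z : ℝ → ℝ), 1 ≤ n → Fam n t lam →
  (∀ θ ∈ Set.Ioc 0 (Real.pi / 3), P1 n θ (t θ) (Q θ)) →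
  (∀ k, ContinuousOn (fun θ => (Q θ).coeff k) (Set.Ioc 0 (Real.pi / 3))) →
  Q (Real.pi / 3) = (X + 1) * (X - 1) ^ (2 * n - 1) →
  (∀ θ ∈ Set.Ioo 0 (Real.pi / 3), Zer n θ (t θ) (Q θ) (z θ)) →
  ∃ δ : ℝ, 0 < δ ∧ ∀ θ, 0 < θ → Real.pi / 3 - δ < θ → θ < Real.pi / 3 → Ord (t θ) (Q θ) (z θ)

def S_ord : Prop := ∀ (n : ℕ) (t Q : ℝ → ℝ[X]) (lam z : ℝ → ℝ), 1 ≤ n → Fam n t lam →
  (∀ θ ∈ Set.Ioc 0 (Real.pi / 3), P1 n θ (t θ) (Q θ)) →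
  (∀ k, ContinuousOn (fun θ => (Q θ).coeff k) (Set.Ioc 0 (Real.pi / 3))) →
  (∀ θ ∈ Set.Ioo 0 (Real.pi / 3), Zer n θ (t θ) (Q θ) (z θ)) →
  (∃ δ : ℝ, 0 < δ ∧ ∀ θ, 0 < θ → Real.pi / 3 - δ < θ → θ < Real.pi / 3 →
    Ord (t θ) (Q θ) (z θ)) →
  ∀ θ ∈ Set.Ioo 0 (Real.pi / 3), Ord (t θ) (Q θ) (z θ)

def S_sq : Prop := ∀ (n : ℕ) (t : ℝ → ℝ[X]) (lam : ℝ → ℝ), 1 ≤ n → Fam n t lam →
  ∀ θ ∈ Set.Ioo 0 (Real.pi / 3), ∃ (Q : ℝ[X]) (z0 : ℝ), SQ n θ (t θ) Q z0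

/-! ## E. complex analysis -/

def S_strip : Prop := ∀ (F : ℂ → ℂ) (L : ℝ), Strip F L → ∀ z : ℂ, |z.im| < Real.pi / 3 →
  Integrable (fun v : ℝ => kc (z - v) * (Real.log (‖F (v + Real.pi / 3 * Complex.I)‖ ^ 2) : ℂ)) ∧
  F z = Complex.exp (∫ v : ℝ, kc (z - v) *
    (Real.log (‖F (v + Real.pi / 3 * Complex.I)‖ ^ 2) : ℂ))

/-- functional relations -/
def S_rs : Prop := ∀ (n : ℕ) (θ : ℝ) (t Q : ℝ[X]) (z0 : ℝ), SQ n θ t Q z0 →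
  (∀ z : ℂ, |z.im| ≤ Real.pi / 3 → DifferentiableAt ℂ (sC n θ t) z ∧
    DifferentiableAt ℂ (rC n θ Q) z) ∧
  (∀ z : ℂ, sC n θ t (starRingEnd ℂ z) = starRingEnd ℂ (sC n θ t z) ∧
    rC n θ Q (starRingEnd ℂ z) = starRingEnd ℂ (rC n θ Q z)) ∧
  (∀ z : ℂ, |z.im| ≤ Real.pi / 3 → sC n θ t (-z) = sC n θ t z ∧ rC n θ Q (-z) = -rC n θ Q z) ∧
  (∀ u : ℝ, sC n θ t (u + Real.pi / 3 * Complex.I) * sC n θ t (u - Real.pi / 3 * Complex.I)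
      = 1 + rC n θ Q u ^ 2) ∧
  (∀ u : ℝ, rC n θ Q (u + Real.pi / 3 * Complex.I) * rC n θ Q (u - Real.pi / 3 * Complex.I)
      = 1 - sC n θ t u) ∧
  (∀ u : ℝ, ‖sC n θ t (u + Real.pi / 3 * Complex.I)‖ ^ 2 = 1 + (rC n θ Q u).re ^ 2) ∧
  (∀ u : ℝ, ‖rC n θ Q (u + Real.pi / 3 * Complex.I)‖ ^ 2 = 1 - (sC n θ t u).re) ∧
  (∀ u : ℝ, (rC n θ Q (u + Real.pi / 3 * Complex.I)).re =
    -(Real.sqrt 3 / 2) * (t.eval (Real.exp u) * Q.eval (Real.exp u)) /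
      ((psi n θ (Real.exp u)).re * ‖psi n θ (om * Real.exp u)‖ ^ 2))

/-- limits at infinity and signs -/
def S_lim : Prop := ∀ (n : ℕ) (θ : ℝ) (t Q : ℝ[X]) (z0 : ℝ), SQ n θ t Q z0 →
  (∃ K : ℝ, ∀ z : ℂ, |z.im| ≤ Real.pi / 3 → ‖sC n θ t z + 2‖ ≤ K * Real.exp (-|z.re|) ∧
    ‖deriv (sC n θ t) z‖ ≤ K * Real.exp (-|z.re|) ∧
    (0 ≤ z.re → ‖rC n θ Q z - Real.sqrt 3‖ ≤ K * Real.exp (-z.re) ∧
      ‖deriv (rC n θ Q) z‖ ≤ K * Real.exp (-z.re))) ∧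
  (∀ u : ℝ, |u| < z0 → 0 < (sC n θ t u).re) ∧ (∀ u : ℝ, z0 < |u| → (sC n θ t u).re < 0) ∧
  (∀ u : ℝ, (sC n θ t u).re < 1) ∧ (∀ u : ℝ, 0 < u → 0 < (rC n θ Q u).re) ∧
  (∀ u : ℝ, z0 < u → 0 < (rC n θ Q (u + Real.pi / 3 * Complex.I)).re) ∧
  (rC n θ Q (z0 + Real.pi / 3 * Complex.I)).re = 0

def S_hfac : Prop := ∀ (n : ℕ) (θ : ℝ) (t Q : ℝ[X]) (z0 : ℝ), SQ n θ t Q z0 →
  ∃ h : ℂ → ℂ, Strip h 2 ∧ (∀ z : ℂ, |z.im| ≤ Real.pi / 3 → sC n θ t z =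
      -(Complex.tanh (3 * (z - z0) / 4) * Complex.tanh (3 * (z + z0) / 4) * h z)) ∧
    ∀ v : ℝ, ‖h (v + Real.pi / 3 * Complex.I)‖ ^ 2 = 1 + (rC n θ Q v).re ^ 2

def S_rfac : Prop := ∀ (n : ℕ) (θ : ℝ) (t Q : ℝ[X]) (z0 : ℝ), SQ n θ t Q z0 →
  ∃ ρ : ℂ → ℂ, Strip ρ (Real.sqrt 3) ∧ (∀ z : ℂ, |z.im| ≤ Real.pi / 3 → rC n θ Q z =
      Complex.tanh (3 * z / 4) * RR θ z ^ n * ρ z) ∧
    ∀ v : ℝ, ‖ρ (v + Real.pi / 3 * Complex.I)‖ ^ 2 = 1 - (sC n θ t v).re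

/-- the a priori bounds -/
def S_bound : Prop := ∀ (n : ℕ) (θ : ℝ) (t Q : ℝ[X]) (z0 : ℝ), SQ n θ t Q z0 →
  (∀ z : ℂ, |z.im| < Real.pi / 3 → ‖sC n θ t z‖ ≤ 2) ∧
  (∀ u : ℝ, 0 ≤ u → (rC n θ Q u).re ≤
    Real.sqrt 3 * (Real.tanh (3 * u / 4) * Rr θ u ^ n))

def S_harn : Prop := ∀ (n : ℕ) (θ : ℝ) (t Q : ℝ[X]) (z0 : ℝ), SQ n θ t Q z0 →
  ∀ l : ℝ, 0 < l → l < 1 → ∀ u v : ℝ, Real.log 3 - Real.log (1 - (sC n θ t u).re) ≤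
    Real.exp (3 / (2 * l) * |u - v|) * (Real.log 3 - Real.log (1 - (sC n θ t v).re))

def S_quant : Prop := ∀ (n : ℕ) (θ : ℝ) (t Q : ℝ[X]) (z0 : ℝ), SQ n θ t Q z0 →
  n * (2 * Real.arctan (Real.cos (3 * θ / 2) / Real.sinh (3 * z0 / 2)))
    + Real.arccos (Real.tanh (3 * z0 / 2))
    + 3 / (4 * Real.pi) * ∫ v : ℝ, Real.log (1 - (sC n θ t v).re) / Real.sinh (3 * (v - z0) / 2)
    = Real.pi / 2

def S_lam : Prop := ∀ (n : ℕ) (θ : ℝ) (t Q : ℝ[X]) (z0 lam : ℝ), SQ n θ t Q z0 → 0 < lam →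
  aeval (Complex.exp ((Real.pi / 3 - θ : ℝ) * Complex.I)) t
      = (lam : ℂ) * aeval (Complex.exp ((Real.pi / 3 - θ : ℝ) * Complex.I)) (phi n θ) →
  -Real.log lam = Real.log ((Real.cosh (3 * z0 / 2) + Real.sin (3 * θ / 2)) /
      (Real.cosh (3 * z0 / 2) - Real.sin (3 * θ / 2)))
    - ∫ v in Set.Ioi (0 : ℝ), 3 / (2 * Real.pi) * Real.sin (3 * θ / 2) * Real.cosh (3 * v / 2) /
      (Real.sinh (3 * v / 2) ^ 2 + Real.sin (3 * θ / 2) ^ 2) *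
        Real.log (1 + (rC n θ Q v).re ^ 2)

def S_tba : Prop := ∀ (n : ℕ) (θ : ℝ) (t Q : ℝ[X]) (z0 lam : ℝ), SQ n θ t Q z0 → 0 < lam →
  aeval (Complex.exp ((Real.pi / 3 - θ : ℝ) * Complex.I)) t
      = (lam : ℂ) * aeval (Complex.exp ((Real.pi / 3 - θ : ℝ) * Complex.I)) (phi n θ) →
  TBA n θ z0 (fun u => (sC n θ t u).re) (fun u => (rC n θ Q u).re) lam

/-! ## F. asymptotics -/

/-- `∫_0^a log(1+t)/t dt` -/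
noncomputable def Ph (a : ℝ) : ℝ := ∫ t in (0 : ℝ)..a, Real.log (1 + t) / t

def S_dilog : Prop := Ph 3 / 2 + Ph 2 = Real.log 2 * Real.log 3 + Real.pi ^ 2 / 6 ∧
  Tendsto (fun s : ℝ => Ph (-s)) (𝓝[<] 1) (𝓝 (-(Real.pi ^ 2 / 6)))

/-- derivative of the driving term of `r` -/
noncomputable def dr (n : ℕ) (θ u : ℝ) : ℝ := 3 / 2 / Real.sinh (3 * u / 2) +
  3 * n * Real.cos (3 * θ / 2) * Real.sinh (3 * u / 2) /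
    (Real.sinh (3 * u / 2) ^ 2 + Real.sin (3 * θ / 2) ^ 2)

/-- derivative of the driving term of `s` -/
noncomputable def ds (z0 u : ℝ) : ℝ :=
  3 / 2 / Real.sinh (3 * (u - z0) / 2) + 3 / 2 / Real.sinh (3 * (u + z0) / 2)

/-- first change of variables -/
def S_int1 : Prop := ∀ (n : ℕ) (θ z0 : ℝ) (s r : ℝ → ℝ) (lam : ℝ), TBA n θ z0 s r lam →
  IntegrableOn (fun u => deriv r u / r u * Real.log (1 + r u ^ 2)) (Set.Ioi 0) ∧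
  ∫ u in Set.Ioi (0 : ℝ), deriv r u / r u * Real.log (1 + r u ^ 2) = Ph 3 / 2

/-- second change of variables -/
def S_int2 : Prop := ∀ (n : ℕ) (θ z0 : ℝ) (s r : ℝ → ℝ) (lam : ℝ), TBA n θ z0 s r lam →
  IntegrableOn (fun u => deriv s u / s u * Real.log (1 - s u)) (Set.Ioi 0) ∧
  ∫ u in Set.Ioi (0 : ℝ), deriv s u / s u * Real.log (1 - s u) = Ph 2 - Ph (-s 0)

/-- even functions with a limit at infinity and integrable derivative -/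
structure Ev (f : ℝ → ℝ) (c : ℝ) : Prop where
  even : ∀ u, f (-u) = f u
  diff : ContDiff ℝ 1 f
  dec : ∃ K, ∀ u, |f u - c| ≤ K * Real.exp (-|u|) ∧ |deriv f u| ≤ K * Real.exp (-|u|)

/-- the double integral -/
def S_dbl : Prop := ∀ (f h : ℝ → ℝ) (a b : ℝ), Ev f a → Ev h b → h 0 = 0 →
  IntegrableOn (fun u => h u * ∫ v : ℝ, kk (u - v) * deriv f v) (Set.Ioi 0) ∧
  IntegrableOn (fun u => f u * ∫ v : ℝ, kk (u - v) * deriv h v) (Set.Ioi 0) ∧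
  (∫ u in Set.Ioi (0 : ℝ), h u * ∫ v : ℝ, kk (u - v) * deriv f v) +
    (∫ u in Set.Ioi (0 : ℝ), f u * ∫ v : ℝ, kk (u - v) * deriv h v) =
  a * b / 2 - 2 * ∫ v in Set.Ioi (0 : ℝ), f v *
    ∫ u in Set.Ioi (0 : ℝ), deriv h u * kk (u + v)

/-- `log (1 - s)` and `log (1 + r²)` are of this kind -/
def S_ev : Prop := ∀ (n : ℕ) (θ z0 : ℝ) (s r : ℝ → ℝ) (lam : ℝ), TBA n θ z0 s r lam →
  Ev (fun u => Real.log (1 - s u)) (Real.log 3) ∧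
  Ev (fun u => Real.log (1 + r u ^ 2)) (Real.log 4) ∧ r 0 = 0 ∧ 0 < s 0

/-- the derivatives of the integral equations -/
def S_dereq : Prop := ∀ (n : ℕ) (θ z0 : ℝ) (s r : ℝ → ℝ) (lam : ℝ), TBA n θ z0 s r lam →
  (∀ u, 0 < u → deriv r u / r u = dr n θ u +
    ∫ v : ℝ, kk (u - v) * deriv (fun v => Real.log (1 - s v)) v) ∧
  (∀ u, 0 < u → u ≠ z0 → deriv s u / s u = ds z0 u +
    ∫ v : ℝ, kk (u - v) * deriv (fun v => Real.log (1 + r v ^ 2)) v)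

/-- the exact identity -/
def S_star : Prop := ∀ (n : ℕ) (θ z0 : ℝ) (s r : ℝ → ℝ) (lam : ℝ), TBA n θ z0 s r lam →
  IntegrableOn (fun u => dr n θ u * Real.log (1 + r u ^ 2)) (Set.Ioi 0) ∧
  Ph 3 / 2 + Ph 2 - Ph (-s 0) = (∫ u in Set.Ioi (0 : ℝ), dr n θ u * Real.log (1 + r u ^ 2))
    + (Real.pi ^ 2 - 4 * Real.pi * n * Real.arctan (Real.cos (3 * θ / 2) / Real.sinh (3 * z0 / 2))
      - 2 * Real.pi * Real.arccos (Real.tanh (3 * z0 / 2)))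
    + 3 * (∫ v in Set.Ioi (0 : ℝ), Real.log (1 - s v) / Real.sinh (3 * (v + z0) / 2))
    + Real.log 2 * Real.log 3
    - 2 * ∫ v in Set.Ioi (0 : ℝ), Real.log (1 - s v) *
        ∫ u in Set.Ioi (0 : ℝ), deriv (fun w => Real.log (1 + r w ^ 2)) u * kk (u + v)

/-- position of the zero and the weak bound for `H = log 3 - log (1 - s)` -/
def S_pos : Prop := ∀ (n : ℕ) (θ z0 : ℝ) (s r : ℝ → ℝ) (lam : ℝ), TBA n θ z0 s r lam →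
  n * Real.cos (3 * θ / 2) ≤ Real.sinh (3 * z0 / 2) ∧
  IntegrableOn (fun v => (Real.log 3 - Real.log (1 - s v)) * Real.exp (3 * v / 2)) (Set.Ioc 0 z0) ∧
  ∫ v in Set.Ioc 0 z0, (Real.log 3 - Real.log (1 - s v)) * Real.exp (3 * v / 2)
    ≤ 5 * Real.exp (3 * z0 / 2)

/-- the main error term -/
def S_mass : Prop := ∀ (θ : ℝ) (z0 : ℕ → ℝ) (s r : ℕ → ℝ → ℝ) (lam : ℕ → ℝ),
  (∀ n, TBA (n + 1) θ (z0 n) (s n) (r n) (lam n)) →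
  (∀ n, IntegrableOn (fun v => (Real.log 3 - Real.log (1 - s n v)) * Real.exp (-(3 * v / 2)))
    (Set.Ioi 0)) ∧
  Tendsto (fun n => Real.exp (-(3 * z0 n / 2)) * ∫ v in Set.Ioi (0 : ℝ),
    (Real.log 3 - Real.log (1 - s n v)) * Real.exp (-(3 * v / 2))) atTop (𝓝 0)

def S_err : Prop := ∀ (θ : ℝ) (z0 : ℕ → ℝ) (s r : ℕ → ℝ → ℝ) (lam : ℕ → ℝ),
  (∀ n, TBA (n + 1) θ (z0 n) (s n) (r n) (lam n)) →
  Tendsto (fun n => ∫ v in Set.Ioi (0 : ℝ), Real.log (1 - s n v) /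
    Real.sinh (3 * (v + z0 n) / 2)) atTop (𝓝 0) ∧
  Tendsto (fun n => ∫ v in Set.Ioi (0 : ℝ), Real.log (1 - s n v) *
    ∫ u in Set.Ioi (0 : ℝ), deriv (fun w => Real.log (1 + r n w ^ 2)) u * kk (u + v))
    atTop (𝓝 0) ∧
  Tendsto (fun n => s n 0) atTop (𝓝[<] 1)

/-- comparison of the two sources -/
def S_cmp : Prop := ∀ (θ : ℝ) (z0 : ℕ → ℝ) (s r : ℕ → ℝ → ℝ) (lam : ℕ → ℝ),
  (∀ n, TBA (n + 1) θ (z0 n) (s n) (r n) (lam n)) →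
  Tendsto (fun n : ℕ => (4 * Real.pi * ((n : ℝ) + 1) *
      Real.arctan (Real.cos (3 * θ / 2) / Real.sinh (3 * z0 n / 2))
      + 2 * Real.pi * Real.arccos (Real.tanh (3 * z0 n / 2))
      - ∫ u in Set.Ioi (0 : ℝ), dr (n + 1) θ u * Real.log (1 + r n u ^ 2))
    - 2 * Real.pi * Real.cos (3 * θ / 2) / Real.sin (3 * θ / 2) *
      (((n : ℝ) + 1) * -Real.log (lam n))) atTop (𝓝 0)

def S_asym : Prop := ∀ (θ : ℝ) (z0 : ℕ → ℝ) (s r : ℕ → ℝ → ℝ) (lam : ℕ → ℝ),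
  (∀ n, TBA (n + 1) θ (z0 n) (s n) (r n) (lam n)) →
  Tendsto (fun n : ℕ => ((n : ℝ) + 1) * -Real.log (lam n)) atTop
    (𝓝 (Real.pi / 3 * Real.tan (3 * θ / 2)))

/-! ## G. percolation -/

def S_link : Prop := ∀ (p : ℝ) (a b : ℕ),
  prob p a b = ∑ τ, (TT (b + 1) p ^ a) τ (st0 (b + 1))

def S_main1 : Prop := ∀ θ : ℝ, 0 < θ → θ < Real.pi / 3 → ∃ r : ℕ → ℝ,
  (∀ b, Tendsto (fun a : ℕ => -(1 / (a : ℝ)) * Real.log (prob (pp θ) a b)) atTop (𝓝 (r b))) ∧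
  Tendsto (fun b : ℕ => (b : ℝ) * r b) atTop (𝓝 (Real.pi / 3 * Real.tan (3 * θ / 2)))

/-- submultiplicativity -/
def S_sub : Prop := ∀ (p : ℝ), 0 < p → p < 1 → ∀ b : ℕ, (∀ a, 0 < prob p a b) ∧
  (∀ a a', prob p (a + a') b ≤ prob p a b * prob p a' b) ∧ prob p 0 b = 1

/-- duality at `p = 1/2` -/
def S_dual : Prop := ∀ a b : ℕ, prob (1 / 2) (a + 1) b + prob (1 / 2) (b + 1) a = 1

/-- gluing at `p = 1/2` -/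
def S_glue : Prop := ∀ a a' b : ℕ,
  prob (1 / 2) (a + b) b * prob (1 / 2) (a' + b) b / 2 ≤ prob (1 / 2) (a + a' + b) b

def S_main2 : Prop := ∀ L l : ℝ, 0 < L → 0 < l → ∀ ε : ℝ, 0 < ε → ∀ᶠ n : ℕ in atTop,
  (1 - ε) * Real.exp (-(Real.pi * L / (3 * l))) ≤ prob (1 / 2) ⌊L * n⌋₊ ⌊l * n⌋₊ ∧
  prob (1 / 2) ⌊L * n⌋₊ ⌊l * n⌋₊ ≤
    (1 + ε) * (2 * Real.exp (Real.pi / 3) * Real.exp (-(Real.pi * L / (3 * l)))) ∧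
  (1 - ε) * Real.exp (-(Real.pi * l / (3 * L))) ≤ 1 - prob (1 / 2) ⌊L * n⌋₊ ⌊l * n⌋₊ ∧
  1 - prob (1 / 2) ⌊L * n⌋₊ ⌊l * n⌋₊ ≤
    (1 + ε) * (2 * Real.exp (Real.pi / 3) * Real.exp (-(Real.pi * l / (3 * L))))

end W96CL
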