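import Pool.Agent.W96.CL.Stm
set_option autoImplicit false

/-! Statements of the final parts of the project CL: comparison with Cardy's formula. -/

open Polynomial Filter Topology MeasureTheory

namespace W96CL

/-- Cardy's function -/
noncomputable def cardyF (x : ℝ) : ℝ :=
  3 * Real.Gamma (2/3) / Real.Gamma (1/3) ^ 2 * x ^ (1/3 : ℝ) *
    ∑' k : ℕ, (ascPochhammer ℝ k).eval (1/3) * (ascPochhammer ℝ k).eval (2/3) /
      ((ascPochhammer ℝ k).eval (4/3) * (k.factorial : ℝ)) * x ^ k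

/-- the two periods -/
noncomputable def ellA (x : ℝ) : ℝ :=
  ∫ t in (0:ℝ)..(1 - x), 1 / Real.sqrt |t * (t - (1 - x)) * (t - 1)|
noncomputable def ellB (x : ℝ) : ℝ :=
  ∫ t in (1 - x)..(1:ℝ), 1 / Real.sqrt |t * (t - (1 - x)) * (t - 1)|

/-- the crossing probability, as a proportion of edge sets of the grid graph -/
noncomputable def gridProb (a b : ℕ) : ℝ :=
  ((Set.ncard {S : Set (Sym2 (Fin (a+1) × Fin (b+1))) |
      S ⊆ (SimpleGraph.boxProd (SimpleGraph.pathGraph (a+1)) (SimpleGraph.pathGraph (b+1))).edgeSet ∧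
      ∃ u v : Fin (a+1) × Fin (b+1), u.1 = 0 ∧ v.1 = Fin.last a ∧
        (SimpleGraph.fromEdgeSet S).Reachable u v} : ℕ) : ℝ) /
    ((2:ℝ) ^ (SimpleGraph.boxProd (SimpleGraph.pathGraph (a+1))
      (SimpleGraph.pathGraph (b+1))).edgeSet.ncard)

def S_ncard : Prop := ∀ a b : ℕ, gridProb a b = prob (1 / 2) a b

def S_ell : Prop := ∃ c C : ℝ, 0 < c ∧ ∀ x : ℝ, 0 < x → x < 1 →
  c * cardyF x ≤ Real.exp (-(Real.pi / 3 * (ellA x / ellB x))) ∧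
  Real.exp (-(Real.pi / 3 * (ellA x / ellB x))) ≤ C * cardyF x

def S_surj : Prop := ∀ p : ℝ, 0 < p → p < 1 → ∃ θ : ℝ, 0 < θ ∧ θ < Real.pi / 3 ∧ pp θ = p

def S_main3 : Prop := ∃ c C : ℝ, 0 < c ∧ ∀ L l x : ℝ, 0 < L → 0 < l → 0 < x → x < 1 →
  L / l = ellA x / ellB x → ∀ᶠ n : ℕ in atTop,
    c * cardyF x ≤ gridProb ⌊L * n⌋₊ ⌊l * n⌋₊ ∧ gridProb ⌊L * n⌋₊ ⌊l * n⌋₊ ≤ C * cardyF x

end W96CL
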